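import Pool.Agent.MD.A.YC
import Pool.Agent.LD.A.RegA
import Pool.Agent.LD.A.Beta
import Pool.Agent.QD.A.Pole

/-!
# THF/A-Defs: the data of the abstract continuation theorem

`S : SysD` with `IsSys0 S` (LD/A/Defs) and `IsKn S Kn` (MD/A/Defs): only the classes in `Kn` are known.
-/

namespace Pool.Agent.THF

open Pool.Agent.QD Pool.Agent.QD.SysD Pool.Agent.LD Pool.Agent.MD

/-- a half strip, a function `om` on it, and functions `e b c` (continuations of `om * Ls * Lu b c`) -/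
structure OmD (S : SysD) where
  x0 : ℝ
  y0 : ℝ
  r : ℝ
  om : ℂ → ℂ
  e : S.J → S.G → ℂ → ℂ

namespace OmD

variable {S : SysD} (T : OmD S)

/-- the domain -/
def Om : Set ℂ := {t : ℂ | T.x0 < t.re ∧ |t.im - T.y0| < T.r}

/-- relatively compact part -/
def OmR (x1 r1 R1 : ℝ) : Set ℂ := {t : ℂ | x1 < t.re ∧ t.re < R1 ∧ |t.im - T.y0| < r1}

open Classical in
/-- the inner sum -/
noncomputable def InE (c' : S.G) (z t : ℂ) : ℂ :=
  ∑' b : S.J, if S.R b c' then T.e b c' t * S.P b c' t * (S.nJ b : ℂ) ^ (-z) else 0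

/-- the continuation of `om * YR` for `Re s` large -/
noncomputable def FE (c : S.G) (s t : ℂ) : ℂ :=
  S.Ls s * ((wp s t - 1) ^ 2 * S.Z1 (wp s t)) * ((ww s t - 1) ^ 2 * S.Z1 (1 - ww s t)) *
    ((S.cU : ℂ) ^ 2)⁻¹ * ∑ c' : S.G, S.M (c * c') (ww s t) * T.InE c' (1 - ww s t) t

/-- the Cauchy integral -/
noncomputable def IE (B : ℝ) (c : S.G) (s t : ℂ) : ℂ :=
  (2 * Real.pi : ℂ)⁻¹ *
    ((∫ y : ℝ, T.FE c (B + y * Complex.I) t * kern (B + y * Complex.I - s)) -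
      ∫ y : ℝ, S.GG c (2 - B + y * Complex.I) * T.FE c (B - y * Complex.I) t *
        kern (2 - B + y * Complex.I - s))

end OmD

/-- the axioms -/
structure IsOm (S : SysD) (T : OmD S) : Prop where
  hr : 0 < T.r
  om_diff : DifferentiableOn ℂ T.om T.Om
  e_diff : ∀ b c, S.R b c → DifferentiableOn ℂ (T.e b c) T.Om
  e_eq : ∀ b c, S.R b c → ∀ t ∈ T.Om, 3 / 2 < t.re → T.e b c t = T.om t * (S.Ls t * S.Lu b c t)
  e_bd : ∀ Q : Set ℂ, IsCompact Q → Q ⊆ T.Om → ∃ A C : ℝ, 0 ≤ A ∧ 0 ≤ C ∧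
    ∀ b c, S.R b c → ∀ t ∈ Q, ‖T.e b c t‖ ≤ C * (S.nJ b : ℝ) ^ A

end Pool.Agent.THF
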