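import Mathlib

/-!
# THF/A-Glue: glueing of continuations on horizontal half strips

PLAN.  For `x' > x`, `y` let `H x' y r = {z | x' < Re z, |Im z - y| < r}` (convex, open).  `hf` gives for every pair `(x', y)` a radius and a function; by the identity theorem it agrees with `g` on `H ∩ {A < Re}` (both are
holomorphic there: `{max x' A < Re z, |Im z - y| < r}` is convex, and they agree far to the right).  For `z` with `x < Re z` choose `x' = (x + Re z)/2`, `y = Im z`: function `f_z` on `H_z ∋ z`; `F z = f_z z`.  If `w ∈ H_z` then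
`f_w w = f_z w`: both are holomorphic on the convex open set `H_z ∩ H_w` and agree for large real part.  So `F = f_z` near `z`, and `F = g` for `A < Re z`.
-/

namespace Pool.Agent.THF

private lemma half_re_isOpen (a : ℝ) : IsOpen {z : ℂ | a < z.re} :=
  isOpen_lt continuous_const Complex.continuous_re

private lemma half_re_convex (a : ℝ) : Convex ℝ {z : ℂ | a < z.re} :=
  convex_halfSpace_re_gt a

private lemma strip_isOpen (y r : ℝ) : IsOpen {z : ℂ | |z.im - y| < r} :=
  isOpen_lt ((Complex.continuous_im.sub continuous_const).abs) continuous_const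

private lemma strip_convex (y r : ℝ) : Convex ℝ {z : ℂ | |z.im - y| < r} := by
  have h : {z : ℂ | |z.im - y| < r} = {z : ℂ | y - r < z.im} ∩ {z : ℂ | z.im < y + r} := by
    ext z
    simp only [Set.mem_ofPred_eq, Set.mem_inter_iff, abs_lt]
    constructor
    · rintro ⟨h1, h2⟩
      exact ⟨by linarith, by linarith⟩
    · rintro ⟨h1, h2⟩
      exact ⟨by linarith, by linarith⟩
  rw [h]
  exact (convex_halfSpace_im_gt _).inter (convex_halfSpace_im_lt _)

/-- Two functions holomorphic on a convex open set `U` stable under moving right, which agree far to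
the right, agree. -/
private lemma ident (U : Set ℂ) (hU : IsOpen U) (hc : Convex ℝ U)
    (hr : ∀ z ∈ U, ∀ t : ℝ, 0 ≤ t → z + (t : ℂ) ∈ U) (f g : ℂ → ℂ)
    (hf : DifferentiableOn ℂ f U) (hg : DifferentiableOn ℂ g U) (A : ℝ)
    (h : ∀ z ∈ U, A < z.re → f z = g z) (w : ℂ) (hw : w ∈ U) : f w = g w := by
  have hfa : AnalyticOnNhd ℂ f U := hf.analyticOnNhd hU
  have hga : AnalyticOnNhd ℂ g U := hg.analyticOnNhd hU
  set t : ℝ := max 0 (A - w.re + 1) with ht
  have ht0 : 0 ≤ t := le_max_left _ _
  have ht1 : A - w.re + 1 ≤ t := le_max_right _ _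
  have hz0 : w + (t : ℂ) ∈ U := hr w hw t ht0
  have hre : A < (w + (t : ℂ)).re := by
    simp only [Complex.add_re, Complex.ofReal_re]
    linarith
  have hev : f =ᶠ[nhds (w + (t : ℂ))] g := by
    have h1 : ∀ᶠ z in nhds (w + (t : ℂ)), z ∈ U := hU.mem_nhds hz0
    have h2 : ∀ᶠ z in nhds (w + (t : ℂ)), A < z.re := (half_re_isOpen A).mem_nhds hre
    filter_upwards [h1, h2] with z hz1 hz2
    exact h z hz1 hz2
  exact hfa.eqOn_of_preconnected_of_eventuallyEq hga hc.isPreconnected hz0 hev hw

theorem glue (x A : ℝ) (g : ℂ → ℂ) (hg : DifferentiableOn ℂ g {z : ℂ | A < z.re})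
    (hf : ∀ x' y : ℝ, x < x' → ∃ (r : ℝ) (f : ℂ → ℂ), 0 < r ∧
      DifferentiableOn ℂ f {z : ℂ | x' < z.re ∧ |z.im - y| < r} ∧
      ∃ A' : ℝ, ∀ z : ℂ, A' < z.re → |z.im - y| < r → f z = g z) :
    ∃ F : ℂ → ℂ, DifferentiableOn ℂ F {z : ℂ | x < z.re} ∧ ∀ z : ℂ, x < z.re → A < z.re →
      F z = g z := by
  classical
  choose! r f hr hd A' hA' using hf
  have key : ∀ z w : ℂ, x < z.re → x < w.re → (x + z.re) / 2 < w.re →
      |w.im - z.im| < r ((x + z.re) / 2) z.im →
      f ((x + w.re) / 2) w.im w = f ((x + z.re) / 2) z.im w := by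
    intro z w hz hw h1 h2
    have hxz : x < (x + z.re) / 2 := by linarith
    have hxw : x < (x + w.re) / 2 := by linarith
    set a := (x + z.re) / 2
    set b := (x + w.re) / 2
    have hU1 : IsOpen {s : ℂ | a < s.re ∧ |s.im - z.im| < r a z.im} :=
      (half_re_isOpen a).inter (strip_isOpen _ _)
    have hU2 : IsOpen {s : ℂ | b < s.re ∧ |s.im - w.im| < r b w.im} :=
      (half_re_isOpen b).inter (strip_isOpen _ _)
    have hC1 : Convex ℝ {s : ℂ | a < s.re ∧ |s.im - z.im| < r a z.im} :=
      (half_re_convex a).inter (strip_convex _ _)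
    have hC2 : Convex ℝ {s : ℂ | b < s.re ∧ |s.im - w.im| < r b w.im} :=
      (half_re_convex b).inter (strip_convex _ _)
    refine ident ({s : ℂ | a < s.re ∧ |s.im - z.im| < r a z.im} ∩
      {s : ℂ | b < s.re ∧ |s.im - w.im| < r b w.im}) (hU1.inter hU2) (hC1.inter hC2) ?_
      _ _ ((hd b w.im hxw).mono Set.inter_subset_right)
      ((hd a z.im hxz).mono Set.inter_subset_left) (max (A' a z.im) (A' b w.im)) ?_ w ?_
    · rintro s ⟨⟨h3, h4⟩, h5, h6⟩ t ht
      refine ⟨⟨?_, ?_⟩, ?_, ?_⟩
      · simp only [Complex.add_re, Complex.ofReal_re]; linarith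
      · simpa only [Complex.add_im, Complex.ofReal_im, add_zero] using h4
      · simp only [Complex.add_re, Complex.ofReal_re]; linarith
      · simpa only [Complex.add_im, Complex.ofReal_im, add_zero] using h6
    · rintro s ⟨⟨h3, h4⟩, h5, h6⟩ h7
      rw [hA' b w.im hxw s (lt_of_le_of_lt (le_max_right _ _) h7) h6,
        hA' a z.im hxz s (lt_of_le_of_lt (le_max_left _ _) h7) h4]
    · refine ⟨⟨h1, h2⟩, ?_, ?_⟩
      · change (x + w.re) / 2 < w.re
        linarith
      · simpa only [sub_self, abs_zero] using hr b w.im hxw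
  refine ⟨fun z => f ((x + z.re) / 2) z.im z, ?_, ?_⟩
  · intro z hz
    have hz' : x < z.re := hz
    have hxz : x < (x + z.re) / 2 := by linarith
    have hU1 : IsOpen {s : ℂ | (x + z.re) / 2 < s.re ∧
        |s.im - z.im| < r ((x + z.re) / 2) z.im} :=
      (half_re_isOpen _).inter (strip_isOpen _ _)
    have hzm : z ∈ {s : ℂ | (x + z.re) / 2 < s.re ∧
        |s.im - z.im| < r ((x + z.re) / 2) z.im} := by
      refine ⟨by linarith, ?_⟩
      simpa only [sub_self, abs_zero] using hr _ z.im hxz
    have hdz : DifferentiableAt ℂ (f ((x + z.re) / 2) z.im) z :=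
      (hd _ z.im hxz).differentiableAt (hU1.mem_nhds hzm)
    have hev : (fun w : ℂ => f ((x + w.re) / 2) w.im w) =ᶠ[nhds z]
        f ((x + z.re) / 2) z.im := by
      filter_upwards [hU1.mem_nhds hzm] with w hw
      exact key z w hz' (lt_trans hxz hw.1) hw.1 hw.2
    exact (hdz.congr_of_eventuallyEq hev).differentiableWithinAt
  · intro z hz hzA
    have hxz : x < (x + z.re) / 2 := by linarith
    change f ((x + z.re) / 2) z.im z = g z
    set a := (x + z.re) / 2
    have hU1 : IsOpen {s : ℂ | a < s.re ∧ |s.im - z.im| < r a z.im} :=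
      (half_re_isOpen a).inter (strip_isOpen _ _)
    have hC1 : Convex ℝ {s : ℂ | a < s.re ∧ |s.im - z.im| < r a z.im} :=
      (half_re_convex a).inter (strip_convex _ _)
    refine ident ({s : ℂ | a < s.re ∧ |s.im - z.im| < r a z.im} ∩ {s : ℂ | A < s.re})
      (hU1.inter (half_re_isOpen A)) (hC1.inter (half_re_convex A)) ?_
      _ _ ((hd a z.im hxz).mono Set.inter_subset_left)
      (hg.mono Set.inter_subset_right) (A' a z.im) ?_ z ?_
    · rintro s ⟨⟨h3, h4⟩, h5⟩ t ht
      refine ⟨⟨?_, ?_⟩, ?_⟩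
      · simp only [Complex.add_re, Complex.ofReal_re]; linarith
      · simpa only [Complex.add_im, Complex.ofReal_im, add_zero] using h4
      · change A < s.re at h5
        simp only [Set.mem_ofPred_eq, Complex.add_re, Complex.ofReal_re]; linarith
    · rintro s ⟨⟨h3, h4⟩, h5⟩ h7
      exact hA' a z.im hxz s h7 h4
    · refine ⟨⟨?_, ?_⟩, hzA⟩
      · change (x + z.re) / 2 < z.re
        linarith
      · simpa only [sub_self, abs_zero] using hr a z.im hxz

end Pool.Agent.THF
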