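import Pool.Agent.THF.A.X
import Pool.Agent.THF.A.Glue
import Pool.Agent.MD.S.One

/-!
# THF/A-N1: the continuation of the double series at `w = 1` (paper section 3)

PLAN.  `g s = YR S c s (s + 1/2)`, holomorphic for `Re s > A0` (`YR_reg`, LD/A/RegA, along the curve `(s, s + 1/2)`).  `glue` with `x = x0 - 1/2`: given `x' > x0 - 1/2` and `y`, take `T` from `hT y` (`om = 1`), `x1 = (x0 + x' + 1/2)/2` (so `x0 < x1 < x' + 1/2`), `r1 = 1/2`; `A0` from `thmX` (it depends on `T`), `R1`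
large; `b0`; the functions `E` for `B = b0 + 2 + ..` (so large that `2 - B < x'`): `f s = E s (s + 1/2)` if `Re s < c1` and `g s` if `Re s ≥ c1`, where `A0 < c1 < R1 - 1`, `c1 + 1 < B`: both agree for `A0 < Re s < c1 + 1` (last part of `thmX`, `om = 1`), so `f` is holomorphic on
`{x' < Re s, |Im s - y| < 1/2}`: on `Re s < c1 + 1` it is `E s (s + 1/2)` (`Hol2` along the curve; `s + 1/2 ∈ OmR x1 (1/2) R1`, if `c1 + 3/2 < R1`), on `Re s > A0` it is `g`.  `A' = c1`.
Result `N`; for `Re s` large `N s = YR S c s (s + 1/2)` is given by `YR_one` (MD/S/One).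
-/

namespace Pool.Agent.THF

open Pool.Agent.QD Pool.Agent.QD.SysD Pool.Agent.LD Pool.Agent.MD

private theorem n1_half (s : ℂ) : (s + 1 / 2).re = s.re + 1 / 2 := by
  rw [Complex.add_re]
  norm_num

private theorem n1_halfi (s : ℂ) : (s + 1 / 2).im = s.im := by
  rw [Complex.add_im]
  norm_num

theorem exists_N {S : SysD} {Kn : Set S.G} (hS : IsSys0 S) (hE : IsExt S) (hG : IsKn S Kn)
    {c : S.G} (hc : c ∈ Kn) {x0 : ℝ}
    (hT : ∀ y : ℝ, ∃ T : OmD S, T.x0 = x0 ∧ T.y0 = y ∧ T.r = 1 ∧ (T.om = fun _ => 1) ∧ IsOm S T) :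
    ∃ (N : ℂ → ℂ) (A : ℝ), DifferentiableOn ℂ N {s : ℂ | x0 - 1 / 2 < s.re} ∧
      ∀ s : ℂ, A < s.re → x0 - 1 / 2 < s.re → N s = (S.cU : ℂ)⁻¹ * S.Zf 0 1 1 *
        (S.Ls s * S.Ls (s + 1 / 2) * ((2 * s - 2) ^ 2 * S.Z1 (2 * s - 1))) * Sym S s := by
  classical
  obtain ⟨Ar, hAr6, hreg⟩ := YR_reg hS
  obtain ⟨Ao, hAo6, hone⟩ := YR_one hS hE
  have hgd : ∀ z : ℂ, Ar < z.re → DifferentiableAt ℂ (fun s : ℂ => YR S c s (s + 1 / 2)) z := by
    intro z hz
    refine (hreg c).1 (fun s => s) (fun s => s + 1 / 2) differentiable_id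
      (differentiable_id.add_const _) z ?_
    exact ⟨hz, by rw [n1_half]; linarith⟩
  have hg : DifferentiableOn ℂ (fun s : ℂ => YR S c s (s + 1 / 2))
      {z : ℂ | max Ar Ao < z.re} := by
    intro z hz
    exact (hgd z (lt_of_le_of_lt (le_max_left _ _) hz)).differentiableWithinAt
  obtain ⟨F, hF1, hF2⟩ := glue (x0 - 1 / 2) (max Ar Ao) (fun s : ℂ => YR S c s (s + 1 / 2)) hg (by
    intro x' y hx'
    obtain ⟨T, hT0, hTy, hTr, hTom, hTI⟩ := hT y
    obtain ⟨AX, hAX6, hX⟩ := thmX hS hG hTI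
    obtain ⟨x1, hx1⟩ : ∃ x1 : ℝ, x1 = (x0 + x' + 1 / 2) / 2 := ⟨_, rfl⟩
    have h01 : x0 < x1 := by rw [hx1]; linarith
    have h1' : x1 < x' + 1 / 2 := by rw [hx1]; linarith
    obtain ⟨M0, hM1, hM2, hM3⟩ : ∃ M0 : ℝ, AX ≤ M0 ∧ Ar ≤ M0 ∧ x1 ≤ M0 :=
      ⟨max (max AX Ar) x1, le_trans (le_max_left _ _) (le_max_left _ _),
        le_trans (le_max_right _ _) (le_max_left _ _), le_max_right _ _⟩
    obtain ⟨b0, hb10, hRb, hb⟩ := hX x1 (1 / 2) (M0 + 5) (by rw [hT0]; exact h01) (by norm_num)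
      (by rw [hTr]; norm_num) (by linarith) (by linarith)
    obtain ⟨B, hB1, hB2⟩ : ∃ B : ℝ, b0 < B ∧ 2 - B < x' :=
      ⟨max (b0 + 1) (3 - x'), lt_of_lt_of_le (by linarith) (le_max_left _ _), by
        have := le_max_right (b0 + 1) (3 - x')
        linarith⟩
    obtain ⟨E, hHol, -, -, hE4⟩ := hb c hc B hB1
    have hmem : ∀ s : ℂ, x' < s.re → s.re < M0 + 2 → |s.im - y| < 1 / 2 →
        s + 1 / 2 ∈ T.OmR x1 (1 / 2) (M0 + 5) := by
      intro s h1 h2 h3
      refine ⟨?_, ?_, ?_⟩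
      · rw [n1_half]; linarith
      · rw [n1_half]; linarith
      · rw [n1_halfi, hTy]; exact h3
    have hEY : ∀ s : ℂ, x' < s.re → M0 + 1 ≤ s.re → s.re < M0 + 2 → |s.im - y| < 1 / 2 →
        E s (s + 1 / 2) = YR S c s (s + 1 / 2) := by
      intro s h1 h2 h3 h4
      rw [hE4 s (s + 1 / 2) (by linarith) (by linarith) (hmem s h1 h3 h4)
        (by rw [n1_half]; linarith), hTom, one_mul]
    refine ⟨1 / 2, fun s => if s.re < M0 + 1 then E s (s + 1 / 2) else YR S c s (s + 1 / 2),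
      by norm_num, ?_, M0 + 1, ?_⟩
    · rintro z ⟨hz1, hz2⟩
      apply DifferentiableAt.differentiableWithinAt
      rcases lt_or_ge z.re (M0 + 2) with hz3 | hz3
      · have hd : DifferentiableAt ℂ (fun s : ℂ => E s (s + 1 / 2)) z := by
          refine hHol (fun s => s) (fun s => s + 1 / 2) differentiable_id
            (differentiable_id.add_const _) z ?_
          exact ⟨⟨by linarith, by linarith⟩, hmem z hz1 hz3 hz2⟩
        refine hd.congr_of_eventuallyEq ?_
        have e1 : IsOpen {s : ℂ | x' < s.re} := isOpen_lt continuous_const Complex.continuous_re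
        have e2 : IsOpen {s : ℂ | s.re < M0 + 2} :=
          isOpen_lt Complex.continuous_re continuous_const
        have e3 : IsOpen {s : ℂ | |s.im - y| < 1 / 2} :=
          isOpen_lt ((Complex.continuous_im.sub continuous_const).abs) continuous_const
        filter_upwards [e1.mem_nhds hz1, e2.mem_nhds hz3, e3.mem_nhds hz2] with s h1 h2 h3
        rcases lt_or_ge s.re (M0 + 1) with h4 | h4
        · rw [if_pos h4]
        · rw [if_neg (not_lt.2 h4), hEY s h1 h4 h2 h3]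
      · refine (hgd z (by linarith)).congr_of_eventuallyEq ?_
        have e1 : IsOpen {s : ℂ | M0 + 1 < s.re} :=
          isOpen_lt continuous_const Complex.continuous_re
        have hz4 : z ∈ {s : ℂ | M0 + 1 < s.re} := by
          show M0 + 1 < z.re
          linarith
        filter_upwards [e1.mem_nhds hz4] with s h1
        rw [if_neg (not_lt.2 (le_of_lt h1))]
    · intro z hz1 hz2
      show (if z.re < M0 + 1 then _ else _) = _
      rw [if_neg (not_lt.2 (le_of_lt hz1))])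
  refine ⟨F, max Ar Ao, hF1, ?_⟩
  intro s hs1 hs2
  rw [hF2 s hs2 hs1, hone c s (lt_of_le_of_lt (le_max_right _ _) hs1)]

end Pool.Agent.THF
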