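import Pool.Agent.THF.A.Defs
import Pool.Agent.LD.A.Gfe

/-!
# THF/A-Eta: the inner sum at the point `s0` where all `e b c'` with `(b, c')` no square vanish

In `InE c' z s0` only the terms with `Sq b c'` survive; re-indexing by `b = 2 • f` gives
`eta z = L0 * ∑' f, P (2 • f) 1 s0 * (nJ f)^(-(2 z))`, which is close to `L0` for `Re z` large.
-/

namespace Pool.Agent.THF

open Pool.Agent.QD Pool.Agent.QD.SysD Pool.Agent.LD Pool.Agent.MD

variable {S : SysD}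

private theorem et_pow_norm (hS : IsSys0 S) (b : S.J) (z : ℂ) :
    ‖(S.nJ b : ℂ) ^ (-z)‖ = (S.nJ b : ℝ) ^ (-z.re) := by
  have h : (0 : ℝ) < (S.nJ b : ℝ) := by exact_mod_cast nJ_pos hS b
  have := Complex.norm_cpow_eq_rpow_re_of_pos h (-z)
  simpa using this

private theorem et_one_le (hS : IsSys0 S) (b : S.J) : (1 : ℝ) ≤ (S.nJ b : ℝ) := by
  exact_mod_cast nJ_pos hS b

private theorem et_cpow (hS : IsSys0 S) (f : S.J) (s : ℂ) :
    (S.nJ (2 • f) : ℂ) ^ (-s) = (S.nJ f : ℂ) ^ (-(2 * s)) := by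
  have h0 : (S.nJ f : ℂ) ≠ 0 := Nat.cast_ne_zero.2 (nJ_pos hS f).ne'
  rw [LD.nJ_two, sq, Nat.cast_mul, Complex.natCast_mul_natCast_cpow, ← Complex.cpow_add _ _ h0]
  congr 1
  ring

private theorem et_inj : Function.Injective fun f : S.J => 2 • f := by
  intro f g hfg
  ext v
  have h1 := DFunLike.congr_fun hfg v
  simp only [Finsupp.smul_apply, smul_eq_mul] at h1
  omega

private theorem et_half {m : S.J} (h1 : ∀ v, Even (m v)) :
    m ∈ Set.range fun f : S.J => 2 • f := by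
  refine ⟨m.mapRange (fun n => n / 2) rfl, ?_⟩
  ext v
  simp only [Finsupp.smul_apply, smul_eq_mul, Finsupp.mapRange_apply]
  exact Nat.two_mul_div_two_of_even (h1 v)

private theorem et_eta (hS : IsSys0 S) (s0 : ℂ) : ∃ W : ℝ, ∀ z : ℂ, W ≤ z.re →
    (∑' f : S.J, S.P (2 • f) 1 s0 * (S.nJ f : ℂ) ^ (-(2 * z))) ≠ 0 := by
  classical
  obtain ⟨A', hA'0, hP⟩ := P_bd hS |s0.re| (abs_nonneg _)
  have hsum : Summable fun b : S.J => (S.nJ b : ℝ) ^ (-(2 : ℝ)) := summable_nJ hS (by norm_num)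
  set Z : ℝ := ∑' b : S.J, (S.nJ b : ℝ) ^ (-(2 : ℝ)) with hZdef
  have hZ0 : 0 ≤ Z := tsum_nonneg fun b => by positivity
  obtain ⟨n, hn⟩ : ∃ n : ℕ, Z < (101 : ℝ) ^ n := by
    obtain ⟨n, hn⟩ := pow_unbounded_of_one_lt Z (by norm_num : (1 : ℝ) < 101)
    exact ⟨n, hn⟩
  have hn0 : (0 : ℝ) ≤ n := Nat.cast_nonneg n
  let Ff : ℂ → S.J → ℂ := fun z f => S.P (2 • f) 1 s0 * (S.nJ f : ℂ) ^ (-(2 * z))
  have hf0 : ∀ (z : ℂ) (f : S.J), ‖Ff z f‖ ≤ (S.nJ f : ℝ) ^ (2 * A' - 2 * z.re) := by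
    intro z f
    have hpos : (0 : ℝ) < S.nJ f := lt_of_lt_of_le one_pos (et_one_le hS f)
    simp only [Ff]
    rw [norm_mul, et_pow_norm hS]
    have h1 := hP (2 • f) 1 (hS.R_two f) s0 le_rfl
    rw [LD.nJ_two] at h1
    have h2 : ((S.nJ f ^ 2 : ℕ) : ℝ) ^ A' = (S.nJ f : ℝ) ^ (2 * A') := by
      push_cast
      rw [← Real.rpow_natCast, ← Real.rpow_mul hpos.le]
      norm_num
    rw [h2] at h1
    have h3 : ((2 : ℂ) * z).re = 2 * z.re := by simp
    rw [h3]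
    calc ‖S.P (2 • f) 1 s0‖ * (S.nJ f : ℝ) ^ (-(2 * z.re))
        ≤ (S.nJ f : ℝ) ^ (2 * A') * (S.nJ f : ℝ) ^ (-(2 * z.re)) := by gcongr
      _ = (S.nJ f : ℝ) ^ (2 * A' - 2 * z.re) := by rw [← Real.rpow_add hpos]; ring_nf
  refine ⟨A' + 2 + n, fun z hz => ?_⟩
  have hf1 : ∀ f : S.J, ‖Ff z f‖ ≤ (S.nJ f : ℝ) ^ (-(2 : ℝ)) := by
    intro f
    refine (hf0 z f).trans ?_
    apply Real.rpow_le_rpow_of_exponent_le (et_one_le hS f)
    linarith
  change (∑' f, Ff z f) ≠ 0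
  have hsumF : Summable (fun f => Ff z f) := Summable.of_norm_bounded hsum hf1
  have h0 : Ff z 0 = 1 := by
    simp only [Ff, smul_zero]
    rw [LD.nJ_zero]
    simp [P]
  rw [hsumF.tsum_eq_add_tsum_ite 0, h0]
  have hrest : ‖∑' f, (if f = 0 then 0 else Ff z f)‖ ≤ (101 : ℝ) ^ (-(n : ℝ)) * Z := by
    rw [hZdef, ← tsum_mul_left]
    refine tsum_of_norm_bounded ((hsum.mul_left _).hasSum) (fun f => ?_)
    by_cases hf : f = 0
    · simp only [hf, if_true, norm_zero]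
      positivity
    · simp only [hf, if_false]
      refine (hf0 z f).trans ?_
      have h101 : (101 : ℝ) ≤ S.nJ f := by exact_mod_cast nJ_ge hS f hf
      have hpos : (0 : ℝ) < S.nJ f := by linarith
      have h1 : (2 * A' - 2 * z.re) ≤ -(n : ℝ) + -(2 : ℝ) := by
        linarith
      calc (S.nJ f : ℝ) ^ (2 * A' - 2 * z.re)
          ≤ (S.nJ f : ℝ) ^ (-(n : ℝ) + -(2 : ℝ)) :=
            Real.rpow_le_rpow_of_exponent_le (et_one_le hS f) h1
        _ = (S.nJ f : ℝ) ^ (-(n : ℝ)) * (S.nJ f : ℝ) ^ (-(2 : ℝ)) := Real.rpow_add hpos _ _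
        _ ≤ (101 : ℝ) ^ (-(n : ℝ)) * (S.nJ f : ℝ) ^ (-(2 : ℝ)) := by
            apply mul_le_mul_of_nonneg_right _ (by positivity)
            exact Real.rpow_le_rpow_of_nonpos (by norm_num) h101 (by linarith)
  have hlt : (101 : ℝ) ^ (-(n : ℝ)) * Z < 1 := by
    rw [Real.rpow_neg (by norm_num), Real.rpow_natCast]
    rw [inv_mul_lt_iff₀ (by positivity)]
    linarith
  intro hcontra
  have h2 : (∑' f, (if f = 0 then 0 else Ff z f)) = -1 := by
    linear_combination hcontra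
  rw [h2, norm_neg, norm_one] at hrest
  linarith

open Classical in
theorem InE_s0 {S : SysD} (hS : IsSys0 S) {T : OmD S} {s0 L0 : ℂ} (hL0 : L0 ≠ 0)
    (h0 : ∀ b c', S.R b c' → ¬ S.Sq b c' → T.e b c' s0 = 0)
    (h1 : ∀ f : S.J, T.e (2 • f) 1 s0 = L0) :
    ∃ (W : ℝ) (eta : ℂ → ℂ), (∀ z : ℂ, W ≤ z.re → eta z ≠ 0) ∧
      ∀ (c' : S.G) (z : ℂ), W ≤ z.re → T.InE c' z s0 = if c' = 1 then eta z else 0 := by
  obtain ⟨W, hW⟩ := et_eta hS s0
  refine ⟨W, fun z => L0 * ∑' f : S.J, S.P (2 • f) 1 s0 * (S.nJ f : ℂ) ^ (-(2 * z)),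
    fun z hz => mul_ne_zero hL0 (hW z hz), fun c' z hz => ?_⟩
  by_cases hc : c' = 1
  · subst hc
    rw [if_pos rfl]
    unfold OmD.InE
    set G : S.J → ℂ := fun b =>
      if S.R b 1 then T.e b 1 s0 * S.P b 1 s0 * (S.nJ b : ℂ) ^ (-z) else 0 with hG
    have hsup : Function.support G ⊆ Set.range fun f : S.J => 2 • f := by
      intro b hb
      refine et_half ?_
      by_contra h2
      apply hb
      rw [hG]
      simp only
      split_ifs with h3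
      · rw [h0 b 1 h3 fun h4 => h2 h4.2, zero_mul, zero_mul]
      · rfl
    have h3 : ∑' b : S.J, G b = ∑' f : S.J, G (2 • f) := (et_inj.tsum_eq hsup).symm
    have h4 : ∀ f : S.J, G (2 • f) =
        L0 * (S.P (2 • f) 1 s0 * (S.nJ f : ℂ) ^ (-(2 * z))) := by
      intro f
      rw [hG]
      simp only
      rw [if_pos (hS.R_two f), h1 f, et_cpow hS]
      ring
    rw [h3, tsum_congr h4, tsum_mul_left]
  · rw [if_neg hc]
    unfold OmD.InE
    have h3 : ∀ b : S.J,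
        (if S.R b c' then T.e b c' s0 * S.P b c' s0 * (S.nJ b : ℂ) ^ (-z) else 0) = 0 := by
      intro b
      split_ifs with h4
      · rw [h0 b c' h4 fun h5 => hc h5.1, zero_mul, zero_mul]
      · rfl
    rw [tsum_congr h3, tsum_zero]

end Pool.Agent.THF
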