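import Pool.Agent.THF.A.Defs
import Pool.Agent.LD.A.Dbl
import Pool.Agent.LD.A.Row
import Pool.Agent.LD.A.DDa

/-!
# THF/A-Agr: `FE = om * YR` for `Re t` large

PLAN.  `YR_beta` (LD/A/Beta): for `Re s, Re t > A0`, `Re (ww s t) < 0`:
`(ww s t)^2 YR c s t = (ww s t - 1)^2 (cU^2)⁻¹ ∑ c', M (c c') (ww s t) * YR c' t s`.  `YR c' t s = Pi2 t s * FF c' t s` (unfold), `FF c' t s = ∑' m, (nJ m)^(-t) DD m c' (ww t s)`,
`ww t s = 1 - ww s t`, `Re (ww t s) > 1`: `DD_eq` (LD/A/DDa): `DD m c' (ww t s) = (ww t s - 1)^2 Z1 (ww t s) D m c' (ww t s)`; `fubini_D` (LD/A/Dbl, `6 ≤ Re t`) :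
`∑' m, (nJ m)^(-t) D m c' w~ = ∑' b, if R b c' then AA b c' t (nJ b)^(-w~) else 0`, `AA_eq` (LD/A/Row): `AA b c' t = Lu b c' t * P b c' t`.
`wp t s = wp s t`, `(ww t s - 1)^2 = (ww s t)^2`.  By `e_eq`: `om t * Ls t * Lu b c' t = e b c' t`.  So `(ww s t)^2 * om t * YR c s t = (ww s t)^2 * FE c s t`, and
`ww s t ≠ 0`.  (`Re (ww s t) = Re t - Re s + 1/2 < 0` for `Re s > Re t + 1/2`.)  `A1 = max A0 6`.
-/

namespace Pool.Agent.THF

open Pool.Agent.QD Pool.Agent.QD.SysD Pool.Agent.LD Pool.Agent.MD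

private theorem agr_ww_swap (s t : ℂ) : ww t s = 1 - ww s t := by
  unfold ww
  ring

private theorem agr_wp_swap (s t : ℂ) : wp t s = wp s t := by
  unfold wp
  ring

private theorem agr_InE {S : SysD} (hS : IsSys0 S) {T : OmD S} (hT : IsOm S T) (c' : S.G)
    {z t : ℂ} (ht : t ∈ T.Om) (ht6 : 6 ≤ t.re) (hz : 1 < z.re) :
    T.om t * (S.Ls t * ∑' m : S.J, (S.nJ m : ℂ) ^ (-t) * S.D m c' z) = T.InE c' z t := by
  classical
  rw [fubini_D hS c' ht6 hz]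
  unfold OmD.InE
  rw [← tsum_mul_left, ← tsum_mul_left]
  refine tsum_congr fun b => ?_
  by_cases hR : S.R b c'
  · rw [if_pos hR, if_pos hR, AA_eq hS b c' hR ht6, hT.e_eq b c' hR t ht (by linarith)]
    ring
  · rw [if_neg hR, if_neg hR]
    ring

private theorem agr_YR {S : SysD} (hS : IsSys0 S) {T : OmD S} (hT : IsOm S T) (c' : S.G)
    {s t : ℂ} (ht : t ∈ T.Om) (ht6 : 6 ≤ t.re) (hw : (ww s t).re < 0) :
    T.om t * YR S c' t s = S.Ls s * ((wp s t - 1) ^ 2 * S.Z1 (wp s t)) *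
      ((ww s t) ^ 2 * S.Z1 (1 - ww s t)) * T.InE c' (1 - ww s t) t := by
  have hz : 1 < (1 - ww s t).re := by
    rw [Complex.sub_re, Complex.one_re]
    linarith
  rw [← agr_InE hS hT c' ht ht6 hz]
  have h1 : FF S c' t s = (ww s t) ^ 2 * S.Z1 (1 - ww s t) *
      ∑' m : S.J, (S.nJ m : ℂ) ^ (-t) * S.D m c' (1 - ww s t) := by
    unfold FF
    rw [← tsum_mul_left]
    refine tsum_congr fun m => ?_
    rw [agr_ww_swap, DD_eq hS m c' hz]
    ring
  unfold YR Pi2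
  rw [h1, agr_wp_swap]
  ring

theorem FE_eq {S : SysD} (hS : IsSys0 S) {T : OmD S} (hT : IsOm S T) : ∃ A1 : ℝ, 6 ≤ A1 ∧
    ∀ (c : S.G) (s t : ℂ), t ∈ T.Om → A1 < t.re → A1 < s.re → t.re + 1 < s.re →
      T.FE c s t = T.om t * YR S c s t := by
  obtain ⟨A0, hA0, H⟩ := YR_beta hS
  refine ⟨A0, hA0, fun c s t ht ht1 hs1 hts => ?_⟩
  have hw : (ww s t).re < 0 := by
    have e : (ww s t).re = t.re - s.re + 1 / 2 := by
      unfold ww
      simp
    rw [e]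
    linarith
  have hw0 : ww s t ≠ 0 := by
    intro h
    rw [h, Complex.zero_re] at hw
    exact lt_irrefl _ hw
  have h1 := H c s t hs1 ht1 hw
  have h2 : (ww s t) ^ 2 * (T.om t * YR S c s t) = (ww s t) ^ 2 * T.FE c s t := by
    calc (ww s t) ^ 2 * (T.om t * YR S c s t) = T.om t * ((ww s t) ^ 2 * YR S c s t) := by ring
      _ = (ww s t - 1) ^ 2 * ((S.cU : ℂ) ^ 2)⁻¹ *
          ∑ c' : S.G, S.M (c * c') (ww s t) * (T.om t * YR S c' t s) := by
        rw [h1, Finset.mul_sum, Finset.mul_sum, Finset.mul_sum]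
        refine Finset.sum_congr rfl fun c' _ => ?_
        ring
      _ = (ww s t) ^ 2 * T.FE c s t := by
        unfold OmD.FE
        rw [Finset.mul_sum, Finset.mul_sum, Finset.mul_sum]
        refine Finset.sum_congr rfl fun c' _ => ?_
        rw [agr_YR hS hT c' ht (by linarith) hw]
        ring
  have h3 : (ww s t) ^ 2 ≠ 0 := pow_ne_zero 2 hw0
  exact (mul_left_cancel₀ h3 h2).symm

end Pool.Agent.THF
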