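import Pool.Agent.THF.A.Defs
import Pool.Agent.QD.A.Cau

/-!
# THF/A-IV: the Cauchy integral is `om * Y` for `Re t > R`

PLAN (adapt `I_eq_V`, QD/A/IIa.lean).  Fix `t`.  `f z = T.om t * Y c z t` is entire in `z` (`hY.hol`: the curve `z ↦ (z, t)`), of polynomial growth in
`2 - B ≤ Re z ≤ B` (`hY.bd c hc (2 - B) B t.re t.re`, `R < t.re`).  `strip_cauchy` (QD/A/Cau) with `α = 2 - B`, `β = B`.  On `Re z = B`: `hFE` gives
`FE c z t = f z`; on `z = 2 - B + y i`: `hY.fe`: `f z = GG c z * f (2 - z)`, `2 - z = B - y i`, and `hFE` at `B - y i`.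
-/

namespace Pool.Agent.THF

open Pool.Agent.QD Pool.Agent.QD.SysD Pool.Agent.LD Pool.Agent.MD

private theorem iv_cast (b : ℝ) : (2 - (b : ℂ)) = ((2 - b : ℝ) : ℂ) := by push_cast; ring

theorem IE_eq_Y {S : SysD} {Kn : Set S.G} {T : OmD S} {R : ℝ} {Y : S.G → ℂ → ℂ → ℂ}
    (hY : IsY S Kn R Y) {c : S.G} (hc : c ∈ Kn) {b0 B : ℝ} (hb0 : 2 ≤ b0) (hB : b0 < B) {t : ℂ}
    (ht : R < t.re) (hFE : ∀ s : ℂ, b0 < s.re → T.FE c s t = T.om t * Y c s t) {s : ℂ}
    (hs1 : 2 - B < s.re) (hs2 : s.re < B) : T.IE B c s t = T.om t * Y c s t := by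
  obtain ⟨A, C, hA, hC, hbd⟩ := hY.bd c hc (2 - B) B t.re t.re ht
  have hf : DifferentiableOn ℂ (fun z => T.om t * Y c z t) {z : ℂ | 1 - B < z.re ∧ z.re < B + 1} := by
    intro z _
    exact ((hY.hol c hc (fun z => z) (fun _ => t) (by fun_prop) (by fun_prop) z
      ht).const_mul _).differentiableWithinAt
  have key := strip_cauchy (α := 2 - B) (β := B) (α' := 1 - B) (β' := B + 1) (by linarith)
    (by linarith) (by linarith) hf hA (C := ‖T.om t‖ * (C * (1 + |t.im|) ^ A)) (fun z h1 h2 => by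
      rw [norm_mul, mul_assoc]
      refine mul_le_mul_of_nonneg_left ?_ (norm_nonneg _)
      refine (hbd z t h1 h2 le_rfl le_rfl).trans ?_
      rw [mul_assoc]
      refine mul_le_mul_of_nonneg_left ?_ hC
      rw [← Real.mul_rpow (by positivity) (by positivity)]
      refine Real.rpow_le_rpow (by positivity) ?_ hA
      nlinarith [abs_nonneg z.im, abs_nonneg t.im, mul_nonneg (abs_nonneg t.im) (abs_nonneg z.im)])
    hs1 hs2
  rw [key]
  unfold OmD.IE
  congr 2
  · congr 1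
    funext y
    rw [hFE _ (by simp; exact hB)]
  · congr 1
    funext y
    rw [iv_cast B]
    have h1 := hY.fe c hc (((2 - B : ℝ) : ℂ) + y * Complex.I) t (by simp; linarith) ht
    have h2 : (2 : ℂ) - (((2 - B : ℝ) : ℂ) + y * Complex.I) = (B : ℂ) - y * Complex.I := by
      push_cast
      ring
    rw [h2] at h1
    rw [h1, hFE _ (by simp; exact hB)]
    ring

end Pool.Agent.THF
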