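import Pool.Agent.THF.A.Defs
import Pool.Agent.LD.A.Gfe

/-!
# THF/A-In: the inner sum `InE`: convergence, bound, holomorphy

The closed rectangle `x1 ≤ Re t ≤ R1`, `|Im t - y0| ≤ r1` is a compact subset of the domain, so the
axiom on `e` and the bound of `P` give `‖e P nJ^(-z)‖ ≤ C nJ^(A + A' - Re z)` there; the sum of the
`nJ^(-2)` converges.  Holomorphy along curves follows termwise.
-/

namespace Pool.Agent.THF

open Pool.Agent.QD Pool.Agent.QD.SysD Pool.Agent.LD Pool.Agent.MD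

open Classical in
/-- the terms of the inner sum -/
private noncomputable def inTm {S : SysD} (T : OmD S) (c' : S.G) (b : S.J) (z t : ℂ) : ℂ :=
  if S.R b c' then T.e b c' t * S.P b c' t * (S.nJ b : ℂ) ^ (-z) else 0

private theorem inTm_compact (x1 r1 R1 y0 : ℝ) :
    IsCompact {t : ℂ | x1 ≤ t.re ∧ t.re ≤ R1 ∧ |t.im - y0| ≤ r1} := by
  have hKc : IsClosed {t : ℂ | x1 ≤ t.re ∧ t.re ≤ R1 ∧ |t.im - y0| ≤ r1} := by
    have h1 : IsClosed {t : ℂ | |t.im - y0| ≤ r1} := isClosed_le (by fun_prop) continuous_const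
    have h2 : IsClosed {t : ℂ | x1 ≤ t.re} := isClosed_le continuous_const Complex.continuous_re
    have h3 : IsClosed {t : ℂ | t.re ≤ R1} := isClosed_le Complex.continuous_re continuous_const
    exact h2.inter (h3.inter h1)
  have hKb : Bornology.IsBounded {t : ℂ | x1 ≤ t.re ∧ t.re ≤ R1 ∧ |t.im - y0| ≤ r1} := by
    rw [isBounded_iff_forall_norm_le]
    refine ⟨|x1| + |R1| + (|r1| + |y0|), ?_⟩
    rintro t ⟨h1, h2, h3⟩
    have h4 : ‖t‖ ≤ |t.re| + |t.im| := Complex.norm_le_abs_re_add_abs_im t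
    have h5 : |t.re| ≤ |x1| + |R1| := by
      rw [abs_le]
      constructor
      · have := neg_abs_le x1
        have := abs_nonneg R1
        linarith
      · have := le_abs_self R1
        have := abs_nonneg x1
        linarith
    have h6 : |t.im| ≤ |r1| + |y0| := by
      have h7 : t.im = (t.im - y0) + y0 := by ring
      rw [h7]
      refine (abs_add_le _ _).trans ?_
      have := le_abs_self r1
      linarith
    linarith
  exact Metric.isCompact_of_isClosed_isBounded hKc hKb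

private theorem inTm_bd {S : SysD} (hS : IsSys0 S) {T : OmD S} {A A' C : ℝ} (hC : 0 ≤ C)
    {K : Set ℂ} (he : ∀ b c, S.R b c → ∀ t ∈ K, ‖T.e b c t‖ ≤ C * (S.nJ b : ℝ) ^ A)
    (hP : ∀ b c, S.R b c → ∀ t ∈ K, ‖S.P b c t‖ ≤ (S.nJ b : ℝ) ^ A')
    (c' : S.G) {z t : ℂ} (ht : t ∈ K) (hz : A + A' + 2 ≤ z.re) (b : S.J) :
    ‖inTm T c' b z t‖ ≤ C * (S.nJ b : ℝ) ^ (-(2 : ℝ)) := by
  have hb : (1 : ℝ) ≤ S.nJ b := by exact_mod_cast nJ_pos hS b
  have hb0 : (0 : ℝ) < S.nJ b := by linarith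
  unfold inTm
  split_ifs with hR
  · rw [norm_mul, norm_mul]
    have hn : ‖(S.nJ b : ℂ) ^ (-z)‖ = (S.nJ b : ℝ) ^ (-z.re) := by
      have := Complex.norm_cpow_eq_rpow_re_of_pos hb0 (-z)
      simpa using this
    rw [hn]
    have h1 := he b c' hR t ht
    have h2 := hP b c' hR t ht
    calc ‖T.e b c' t‖ * ‖S.P b c' t‖ * (S.nJ b : ℝ) ^ (-z.re)
        ≤ (C * (S.nJ b : ℝ) ^ A) * (S.nJ b : ℝ) ^ A' * (S.nJ b : ℝ) ^ (-(A + A' + 2)) := by
          apply mul_le_mul _ _ (by positivity) (by positivity)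
          · exact mul_le_mul h1 h2 (norm_nonneg _) (by positivity)
          · exact Real.rpow_le_rpow_of_exponent_le hb (by linarith)
      _ = C * (((S.nJ b : ℝ) ^ A * (S.nJ b : ℝ) ^ A') * (S.nJ b : ℝ) ^ (-(A + A' + 2))) := by ring
      _ = C * (S.nJ b : ℝ) ^ (-(2 : ℝ)) := by
          rw [← Real.rpow_add hb0, ← Real.rpow_add hb0]
          congr 2
          ring
  · rw [norm_zero]
    positivity

private theorem inTm_diff {S : SysD} (hS : IsSys0 S) {T : OmD S} (hT : IsOm S T) (c' : S.G)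
    (b : S.J) {σ τ : ℂ → ℂ} (hσ : Differentiable ℂ σ) (hτ : Differentiable ℂ τ) {U : Set ℂ}
    (hU : ∀ z ∈ U, τ z ∈ T.Om) : DifferentiableOn ℂ (fun z => inTm T c' b (σ z) (τ z)) U := by
  have hb0 : (S.nJ b : ℂ) ≠ 0 := by
    have := nJ_pos hS b
    exact_mod_cast this.ne'
  unfold inTm
  split_ifs with hR
  · have h1 : DifferentiableOn ℂ (fun z => T.e b c' (τ z)) U :=
      (hT.e_diff b c' hR).comp hτ.differentiableOn hU
    have h2 : DifferentiableOn ℂ (fun z => S.P b c' (τ z)) U :=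
      ((P_diff hS b c').comp hτ).differentiableOn
    exact (h1.mul h2).mul ((hσ.neg.const_cpow (Or.inl hb0)).differentiableOn)
  · exact differentiableOn_const _

theorem InE_reg {S : SysD} (hS : IsSys0 S) {T : OmD S} (hT : IsOm S T) {x1 r1 : ℝ} (R1 : ℝ)
    (h1 : T.x0 < x1) (h2 : r1 < T.r) : ∃ W C : ℝ, 2 ≤ W ∧ 0 ≤ C ∧ ∀ c' : S.G,
      (∀ z t : ℂ, W ≤ z.re → t ∈ T.OmR x1 r1 R1 → ‖T.InE c' z t‖ ≤ C) ∧
      (∀ z t : ℂ, W ≤ z.re → t ∈ T.OmR x1 r1 R1 → (open Classical in Summable fun b : S.J =>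
        if S.R b c' then T.e b c' t * S.P b c' t * (S.nJ b : ℂ) ^ (-z) else 0)) ∧
      Hol2 {x : ℂ × ℂ | W < x.1.re ∧ x.2 ∈ T.OmR x1 r1 R1} (T.InE c') := by
  have hsub : {t : ℂ | x1 ≤ t.re ∧ t.re ≤ R1 ∧ |t.im - T.y0| ≤ r1} ⊆ T.Om := by
    rintro t ⟨a1, a2, a3⟩
    exact ⟨lt_of_lt_of_le h1 a1, lt_of_le_of_lt a3 h2⟩
  obtain ⟨A, C, hA, hC, he⟩ := hT.e_bd _ (inTm_compact x1 r1 R1 T.y0) hsub
  obtain ⟨A', hA', hP0⟩ := P_bd hS (|x1| + |R1|) (by positivity)
  have hP : ∀ b c, S.R b c → ∀ t ∈ {t : ℂ | x1 ≤ t.re ∧ t.re ≤ R1 ∧ |t.im - T.y0| ≤ r1},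
      ‖S.P b c t‖ ≤ (S.nJ b : ℝ) ^ A' := by
    rintro b c hR t ⟨a1, a2, a3⟩
    refine hP0 b c hR t ?_
    rw [abs_le]
    constructor
    · have := neg_abs_le x1
      have := abs_nonneg R1
      linarith
    · have := le_abs_self R1
      have := abs_nonneg x1
      linarith
  have hcl : ∀ t ∈ T.OmR x1 r1 R1, t ∈ {t : ℂ | x1 ≤ t.re ∧ t.re ≤ R1 ∧ |t.im - T.y0| ≤ r1} := by
    rintro t ⟨a1, a2, a3⟩
    exact ⟨a1.le, a2.le, a3.le⟩
  have hsum : Summable fun b : S.J => C * (S.nJ b : ℝ) ^ (-(2 : ℝ)) :=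
    (summable_nJ hS (by norm_num)).mul_left C
  refine ⟨A + A' + 2, ∑' b : S.J, C * (S.nJ b : ℝ) ^ (-(2 : ℝ)), by linarith,
    tsum_nonneg fun b => by positivity, fun c' => ⟨?_, ?_, ?_⟩⟩
  · intro z t hz ht
    exact tsum_of_norm_bounded hsum.hasSum
      (fun b => inTm_bd hS hC he hP c' (hcl t ht) hz b)
  · intro z t hz ht
    exact Summable.of_norm_bounded hsum (fun b => inTm_bd hS hC he hP c' (hcl t ht) hz b)
  · rintro σ τ hσ hτ z0 ⟨hz1, hz2⟩
    have cσ := hσ.continuous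
    have cτ := hτ.continuous
    let U : Set ℂ := {z : ℂ | A + A' + 2 < (σ z).re} ∩
      ({z : ℂ | x1 < (τ z).re} ∩ ({z : ℂ | (τ z).re < R1} ∩ {z : ℂ | |(τ z).im - T.y0| < r1}))
    have hU : IsOpen U := by
      refine (isOpen_lt continuous_const (Complex.continuous_re.comp cσ)).inter ?_
      refine (isOpen_lt continuous_const (Complex.continuous_re.comp cτ)).inter ?_
      refine (isOpen_lt (Complex.continuous_re.comp cτ) continuous_const).inter ?_
      exact isOpen_lt ((Complex.continuous_im.comp cτ).sub continuous_const).abs continuous_const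
    have hz0U : z0 ∈ U := ⟨hz1, hz2.1, hz2.2.1, hz2.2.2⟩
    have hUR : ∀ z ∈ U, τ z ∈ T.OmR x1 r1 R1 := fun z hz => ⟨hz.2.1, hz.2.2.1, hz.2.2.2⟩
    have hd : DifferentiableOn ℂ (fun z => ∑' b, inTm T c' b (σ z) (τ z)) U := by
      refine Complex.differentiableOn_tsum_of_summable_norm hsum
        (fun b => inTm_diff hS hT c' b hσ hτ (fun z hz => hsub (hcl _ (hUR z hz)))) hU ?_
      intro b z hz
      exact inTm_bd hS hC he hP c' (hcl _ (hUR z hz)) (le_of_lt hz.1) b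
    exact hd.differentiableAt (hU.mem_nhds hz0U)

end Pool.Agent.THF
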