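import Pool.Agent.THF.A.In
import Pool.Agent.LD.A.Bd2
import Pool.Agent.LD.A.Euler
import Pool.Agent.LD.A.UtilH

/-!
# THF/A-Reg: the function `FE` for `Re s` large

Let `W, C` be the constants of `InE_reg`. For `t ∈ OmR` and `Re s > b0 = W + |x1| + |R1| + 10` we have `Re (1 - ww s t) > W`,
`Re (wp s t) > 1` and `Re (ww s t) < 0`; so `FE` is holomorphic along all curves, and every factor grows at most polynomially
in `Im s` on the line `Re s = B`.
-/

namespace Pool.Agent.THF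

open Pool.Agent.QD Pool.Agent.QD.SysD Pool.Agent.LD Pool.Agent.MD

private theorem Reg_re1 {s t : ℂ} : (1 - ww s t).re = s.re - t.re + 1 / 2 := by
  simp only [ww, Complex.sub_re, Complex.add_re, Complex.one_re, Complex.div_ofNat_re]
  ring

private theorem Reg_re2 {s t : ℂ} : (ww s t).re = t.re - s.re + 1 / 2 := by
  simp only [ww, Complex.sub_re, Complex.add_re, Complex.one_re, Complex.div_ofNat_re]

private theorem Reg_im2 {s t : ℂ} : (ww s t).im = t.im - s.im := by
  simp [ww, Complex.sub_im, Complex.add_im]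

private theorem Reg_re3 {s t : ℂ} : (wp s t).re = t.re + s.re - 3 / 2 := by
  simp [wp, Complex.sub_re, Complex.add_re]

private theorem Reg_im3 {s t : ℂ} : (wp s t).im = t.im + s.im := by
  simp [wp, Complex.sub_im, Complex.add_im]

/-- polynomial bound in `Im s` on the line `Re s = b` -/
private def RegB (O : Set ℂ) (b : ℝ) (f : ℂ → ℂ → ℂ) : Prop :=
  ∃ A C : ℝ, 0 ≤ A ∧ 0 ≤ C ∧ ∀ s t : ℂ, s.re = b → t ∈ O → ‖f s t‖ ≤ C * (1 + |s.im|) ^ A

private theorem Reg_bdd {O : Set ℂ} {b : ℝ} {f : ℂ → ℂ → ℂ} (C : ℝ)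
    (h : ∀ s t : ℂ, s.re = b → t ∈ O → ‖f s t‖ ≤ C) : RegB O b f := by
  refine ⟨0, max C 0, le_rfl, le_max_right _ _, fun s t hs ht => ?_⟩
  rw [Real.rpow_zero, mul_one]
  exact (h s t hs ht).trans (le_max_left _ _)

private theorem Reg_mul {O : Set ℂ} {b : ℝ} {f g : ℂ → ℂ → ℂ} (hf : RegB O b f) (hg : RegB O b g) :
    RegB O b (fun s t => f s t * g s t) := by
  obtain ⟨A1, C1, hA1, hC1, h1⟩ := hf
  obtain ⟨A2, C2, hA2, hC2, h2⟩ := hg
  refine ⟨A1 + A2, C1 * C2, by positivity, by positivity, fun s t hs ht => ?_⟩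
  have hx : 0 < 1 + |s.im| := by positivity
  rw [norm_mul, Real.rpow_add hx]
  calc ‖f s t‖ * ‖g s t‖ ≤ (C1 * (1 + |s.im|) ^ A1) * (C2 * (1 + |s.im|) ^ A2) :=
        mul_le_mul (h1 s t hs ht) (h2 s t hs ht) (norm_nonneg _) (by positivity)
    _ = C1 * C2 * ((1 + |s.im|) ^ A1 * (1 + |s.im|) ^ A2) := by ring

private theorem Reg_le {x A A' C C' : ℝ} (hx : 1 ≤ x) (hA : A ≤ A') (hC : 0 ≤ C) (hCC : C ≤ C') :
    C * x ^ A ≤ C' * x ^ A' :=
  mul_le_mul hCC (Real.rpow_le_rpow_of_exponent_le hx hA) (by positivity) (hC.trans hCC)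

private theorem Reg_add {O : Set ℂ} {b : ℝ} {f g : ℂ → ℂ → ℂ} (hf : RegB O b f) (hg : RegB O b g) :
    RegB O b (fun s t => f s t + g s t) := by
  obtain ⟨A1, C1, hA1, hC1, h1⟩ := hf
  obtain ⟨A2, C2, hA2, hC2, h2⟩ := hg
  refine ⟨A1 + A2, C1 + C2, by positivity, by positivity, fun s t hs ht => ?_⟩
  have hx : 1 ≤ 1 + |s.im| := by linarith [abs_nonneg s.im]
  have e1 := (h1 s t hs ht).trans (Reg_le hx (by linarith : A1 ≤ A1 + A2) hC1 le_rfl)
  have e2 := (h2 s t hs ht).trans (Reg_le hx (by linarith : A2 ≤ A1 + A2) hC2 le_rfl)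
  calc ‖f s t + g s t‖ ≤ ‖f s t‖ + ‖g s t‖ := norm_add_le _ _
    _ ≤ C1 * (1 + |s.im|) ^ (A1 + A2) + C2 * (1 + |s.im|) ^ (A1 + A2) := add_le_add e1 e2
    _ = (C1 + C2) * (1 + |s.im|) ^ (A1 + A2) := by ring

private theorem Reg_sum {O : Set ℂ} {b : ℝ} {ι : Type*} (u : Finset ι) {f : ι → ℂ → ℂ → ℂ}
    (hf : ∀ i ∈ u, RegB O b (f i)) : RegB O b (fun s t => ∑ i ∈ u, f i s t) := by
  classical
  induction u using Finset.induction_on with
  | empty => exact Reg_bdd 0 (fun s t _ _ => by simp)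
  | insert a u ha ih =>
    have h1 := Reg_add (hf a (Finset.mem_insert_self a u))
      (ih fun i hi => hf i (Finset.mem_insert_of_mem hi))
    simpa only [Finset.sum_insert ha] using h1

/-- linear growth -/
private theorem Reg_lin {O : Set ℂ} {b P Q : ℝ} {f : ℂ → ℂ → ℂ} (hP : 0 ≤ P) (hQ : 0 ≤ Q)
    (h : ∀ s t : ℂ, s.re = b → t ∈ O → |(f s t).re| ≤ P ∧ |(f s t).im| ≤ Q + |s.im|) : RegB O b f := by
  refine ⟨1, P + Q + 1, zero_le_one, by positivity, fun s t hs ht => ?_⟩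
  have e1 := Complex.norm_le_abs_re_add_abs_im (f s t)
  obtain ⟨e2, e3⟩ := h s t hs ht
  rw [Real.rpow_one]
  have e6 := abs_nonneg s.im
  nlinarith [mul_nonneg hP e6, mul_nonneg hQ e6]

theorem FE_reg {S : SysD} (hS : IsSys0 S) {T : OmD S} (hT : IsOm S T) {x1 r1 : ℝ} (R1 : ℝ)
    (h1 : T.x0 < x1) (h2 : r1 < T.r) : ∃ b0 : ℝ, 10 ≤ b0 ∧ R1 + 10 ≤ b0 ∧ ∀ c : S.G,
      Hol2 {x : ℂ × ℂ | b0 < x.1.re ∧ x.2 ∈ T.OmR x1 r1 R1} (T.FE c) ∧
      ∀ B : ℝ, b0 < B → ∃ A C : ℝ, 0 ≤ A ∧ 0 ≤ C ∧ ∀ s t : ℂ, s.re = B →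
        t ∈ T.OmR x1 r1 R1 → ‖T.FE c s t‖ ≤ C * (1 + |s.im|) ^ A := by
  obtain ⟨W, CI, hW, hCI, hIn⟩ := InE_reg hS hT R1 h1 h2
  have a1 := abs_nonneg x1
  have a2 := abs_nonneg R1
  have a3 := le_abs_self R1
  have a4 := neg_abs_le x1
  refine ⟨W + |x1| + |R1| + 10, by linarith, by linarith, fun c => ⟨?_, fun B hB => ?_⟩⟩
  · -- holomorphy
    set U : Set (ℂ × ℂ) := {x : ℂ × ℂ | W + |x1| + |R1| + 10 < x.1.re ∧ x.2 ∈ T.OmR x1 r1 R1} with hU
    have hUx : ∀ x ∈ U, W + |x1| + |R1| + 10 < x.1.re ∧ x1 < x.2.re ∧ x.2.re < R1 := by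
      intro x hx
      exact ⟨hx.1, hx.2.1, hx.2.2.1⟩
    have hww1 : Hol2 Set.univ (fun s t => 1 - ww s t) := (Hol2.const Set.univ 1).sub hol2_ww
    have gL : Hol2 U (fun s _ => S.Ls s) := by
      have h := Hol2.comp1 (isOpen_lt continuous_const Complex.continuous_re) (Ls_diff hS) hol2_fst
      refine h.mono fun x hx => ?_
      obtain ⟨h3, h4, h5⟩ := hUx x hx
      show (3 / 2 : ℝ) < x.1.re
      linarith
    have gP : Hol2 U (fun s t => (wp s t - 1) ^ 2) := by
      have h : Hol2 U (fun s t => wp s t - 1) :=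
        (hol2_wp.mono (Set.subset_univ U)).sub (Hol2.const U 1)
      have h' := h.mul h
      simp only [← pow_two] at h'
      exact h'
    have gZP : Hol2 U (fun s t => S.Z1 (wp s t)) := by
      have h := Hol2.comp1 (isOpen_lt continuous_const Complex.continuous_re) (Z1_diff hS) hol2_wp
      refine h.mono fun x hx => ?_
      obtain ⟨h3, h4, h5⟩ := hUx x hx
      show (1 : ℝ) < (wp x.1 x.2).re
      rw [Reg_re3]
      linarith
    have gM : Hol2 U (fun s t => (ww s t - 1) ^ 2) := by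
      have h : Hol2 U (fun s t => ww s t - 1) :=
        (hol2_ww.mono (Set.subset_univ U)).sub (Hol2.const U 1)
      have h' := h.mul h
      simp only [← pow_two] at h'
      exact h'
    have gZM : Hol2 U (fun s t => S.Z1 (1 - ww s t)) := by
      have h := Hol2.comp1 (isOpen_lt continuous_const Complex.continuous_re) (Z1_diff hS) hww1
      refine h.mono fun x hx => ?_
      obtain ⟨h3, h4, h5⟩ := hUx x hx
      show (1 : ℝ) < (1 - ww x.1 x.2).re
      rw [Reg_re1]
      linarith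
    have gMM : ∀ g, Hol2 U (fun s t => S.M g (ww s t)) := by
      intro g
      have h := Hol2.comp1 (isOpen_lt Complex.continuous_re continuous_const) (M_diff hS g) hol2_ww
      refine h.mono fun x hx => ?_
      obtain ⟨h3, h4, h5⟩ := hUx x hx
      show (ww x.1 x.2).re < 0
      rw [Reg_re2]
      linarith
    have gI : ∀ c', Hol2 U (fun s t => T.InE c' (1 - ww s t) t) := by
      intro c'
      have h := Hol2.comp (hIn c').2.2 hww1 hol2_snd
      refine h.mono fun x hx => ?_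
      obtain ⟨h3, h4, h5⟩ := hUx x hx
      show W < (1 - ww x.1 x.2).re ∧ x.2 ∈ T.OmR x1 r1 R1
      rw [Reg_re1]
      exact ⟨by linarith, hx.2⟩
    have gS : Hol2 U (fun s t => ∑ c' : S.G, S.M (c * c') (ww s t) * T.InE c' (1 - ww s t) t) :=
      fun σ τ hσ hτ z hz => DifferentiableAt.fun_sum fun c' _ => ((gMM (c * c')).mul (gI c')) σ τ hσ hτ z hz
    exact (((gL.mul (gP.mul gZP)).mul (gM.mul gZM)).mul (Hol2.const U ((S.cU : ℂ) ^ 2)⁻¹)).mul gS
  · -- bounds
    set O : Set ℂ := T.OmR x1 r1 R1 with hO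
    have htim : ∀ t ∈ O, |t.im| ≤ |T.y0| + |r1| := by
      intro t ht
      have h3 : |t.im - T.y0| < r1 := ht.2.2
      have h4 := abs_add_le (t.im - T.y0) T.y0
      rw [sub_add_cancel] at h4
      have h5 := le_abs_self r1
      linarith
    have htre : ∀ t ∈ O, |t.re| ≤ |x1| + |R1| := by
      intro t ht
      have h3 : x1 < t.re := ht.1
      have h4 : t.re < R1 := ht.2.1
      rw [abs_le]
      constructor <;> linarith
    have hP0 : 0 ≤ |x1| + |R1| + |B| + 5 := by positivity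
    have hQ0 : 0 ≤ |T.y0| + |r1| := by positivity
    have hw : RegB O B (fun s t => ww s t - 1) := by
      refine Reg_lin hP0 hQ0 fun s t hs ht => ⟨?_, ?_⟩
      · rw [Complex.sub_re, Reg_re2, hs, Complex.one_re]
        have e1 := htre t ht
        have e2 := neg_abs_le B
        have e3 := le_abs_self B
        rw [abs_le] at e1 ⊢
        constructor <;> linarith [e1.1, e1.2]
      · rw [Complex.sub_im, Reg_im2, Complex.one_im, sub_zero]
        have e1 := abs_sub t.im s.im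
        have e2 := htim t ht
        linarith
    have hp : RegB O B (fun s t => wp s t - 1) := by
      refine Reg_lin hP0 hQ0 fun s t hs ht => ⟨?_, ?_⟩
      · rw [Complex.sub_re, Reg_re3, hs, Complex.one_re]
        have e1 := htre t ht
        have e2 := neg_abs_le B
        have e3 := le_abs_self B
        rw [abs_le] at e1 ⊢
        constructor <;> linarith [e1.1, e1.2]
      · rw [Complex.sub_im, Reg_im3, Complex.one_im, sub_zero]
        have e1 := abs_add_le t.im s.im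
        have e2 := htim t ht
        linarith
    obtain ⟨CZ, -, hCZ⟩ := Z1_bd hS (c := 2) (by norm_num)
    have hZM : RegB O B (fun s t => S.Z1 (1 - ww s t)) := by
      refine Reg_bdd CZ fun s t hs ht => hCZ _ ?_
      rw [Reg_re1, hs]
      have : t.re < R1 := ht.2.1
      linarith
    have hZP : RegB O B (fun s t => S.Z1 (wp s t)) := by
      refine Reg_bdd CZ fun s t hs ht => hCZ _ ?_
      rw [Reg_re3, hs]
      have : x1 < t.re := ht.1
      linarith
    obtain ⟨CL, -, hCL⟩ := Ls_bd hS (c := 2) (by norm_num)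
    have hL : RegB O B (fun s _ => S.Ls s) := Reg_bdd CL fun s t hs _ => hCL _ (by linarith)
    have hcU : RegB O B (fun _ _ => ((S.cU : ℂ) ^ 2)⁻¹) :=
      Reg_bdd ‖((S.cU : ℂ) ^ 2)⁻¹‖ fun _ _ _ _ => le_rfl
    have hM : ∀ g, RegB O B (fun s t => S.M g (ww s t)) := by
      intro g
      obtain ⟨A, C', hA, hC', hMb⟩ := M_bd hS g (x1 - B + 1 / 2) (R1 - B + 1 / 2) (by linarith)
      refine ⟨A, C' * (1 + (|T.y0| + |r1|)) ^ A, hA, by positivity, fun s t hs ht => ?_⟩
      have e1 := hMb (ww s t) (by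
        rw [Reg_re2, hs]
        have : x1 < t.re := ht.1
        linarith) (by
        rw [Reg_re2, hs]
        have : t.re < R1 := ht.2.1
        linarith)
      have e2 : 1 + |(ww s t).im| ≤ (1 + (|T.y0| + |r1|)) * (1 + |s.im|) := by
        rw [Reg_im2]
        have e5 := htim t ht
        have e6 := abs_sub t.im s.im
        have e8 := abs_nonneg s.im
        nlinarith [mul_nonneg hQ0 e8]
      calc ‖S.M g (ww s t)‖ ≤ C' * (1 + |(ww s t).im|) ^ A := e1
        _ ≤ C' * ((1 + (|T.y0| + |r1|)) * (1 + |s.im|)) ^ A :=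
            mul_le_mul_of_nonneg_left (Real.rpow_le_rpow (by positivity) e2 hA) hC'
        _ = C' * (1 + (|T.y0| + |r1|)) ^ A * (1 + |s.im|) ^ A := by
            rw [Real.mul_rpow (by positivity) (by positivity)]
            ring
    have hI : ∀ c', RegB O B (fun s t => T.InE c' (1 - ww s t) t) := by
      intro c'
      refine Reg_bdd CI fun s t hs ht => (hIn c').1 _ t ?_ ht
      rw [Reg_re1, hs]
      have : t.re < R1 := ht.2.1
      linarith
    obtain ⟨A, C', hA, hC', h3⟩ := Reg_mul (Reg_mul (Reg_mul (Reg_mul hL (Reg_mul (Reg_mul hp hp) hZP))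
      (Reg_mul (Reg_mul hw hw) hZM)) hcU)
      (Reg_sum Finset.univ fun c' (_ : c' ∈ Finset.univ) => Reg_mul (hM (c * c')) (hI c'))
    refine ⟨A, C', hA, hC', fun s t hs ht => ?_⟩
    have h4 := h3 s t hs ht
    have h5 : T.FE c s t = S.Ls s * ((wp s t - 1) * (wp s t - 1) * S.Z1 (wp s t)) *
        ((ww s t - 1) * (ww s t - 1) * S.Z1 (1 - ww s t)) * ((S.cU : ℂ) ^ 2)⁻¹ *
        ∑ c' : S.G, S.M (c * c') (ww s t) * T.InE c' (1 - ww s t) t := by
      rw [← pow_two, ← pow_two]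
      rfl
    rw [h5]
    exact h4

end Pool.Agent.THF
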